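import Pool.Agent.Lib_helper57.MinHomeo.Defs

/-!
# SPHCONN: removing a codimension two subsphere does not disconnect open sets
-/

open Set Metric Topology

namespace Pool.Agent.MinHomeo

namespace SphConn

/-- If every point of `Z` has arbitrarily small neighbourhoods whose parts outside `Z` are
preconnected and nonempty, then removing `Z` does not disconnect open sets. -/
lemma removal {M : Type*} [TopologicalSpace M] (Z : Set M)
    (hZ : ∀ p ∈ Z, ∀ G : Set M, IsOpen G → p ∈ G → ∃ N, IsOpen N ∧ p ∈ N ∧ N ⊆ G ∧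
      IsPreconnected (N \ Z) ∧ (N \ Z).Nonempty)
    (O : Set M) (hO : IsOpen O) (hOc : IsPreconnected O) : IsPreconnected (O \ Z) := by
  intro u v hu hv huv hOu hOv
  by_contra hcon
  rw [Set.not_nonempty_iff_eq_empty] at hcon
  set A : Set M := {x | ∃ N, IsOpen N ∧ x ∈ N ∧ N \ Z ⊆ u} with hA
  set B : Set M := {x | ∃ N, IsOpen N ∧ x ∈ N ∧ N \ Z ⊆ v} with hB
  have hAo : IsOpen A := by
    rw [isOpen_iff_forall_mem_open]
    rintro x ⟨N, hN, hx, hNu⟩
    exact ⟨N, fun y hy => ⟨N, hN, hy, hNu⟩, hN, hx⟩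
  have hBo : IsOpen B := by
    rw [isOpen_iff_forall_mem_open]
    rintro x ⟨N, hN, hx, hNu⟩
    exact ⟨N, fun y hy => ⟨N, hN, hy, hNu⟩, hN, hx⟩
  have huA : u ⊆ A := fun x hx => ⟨u, hu, hx, sdiff_subset⟩
  have hvB : v ⊆ B := fun x hx => ⟨v, hv, hx, sdiff_subset⟩
  have hcov : O ⊆ A ∪ B := by
    intro x hx
    by_cases hxZ : x ∈ Z
    · obtain ⟨N, hN, hxN, hNO, hc, hne⟩ := hZ x hxZ O hO hx
      by_cases h1 : (N \ Z ∩ u).Nonempty
      · by_cases h2 : (N \ Z ∩ v).Nonempty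
        · exfalso
          have h3 : N \ Z ⊆ u ∪ v := (sdiff_subset_sdiff_left hNO).trans huv
          obtain ⟨y, hy1, hy2⟩ := hc u v hu hv h3 h1 h2
          have : y ∈ O \ Z ∩ (u ∩ v) := ⟨⟨hNO hy1.1, hy1.2⟩, hy2⟩
          rw [hcon] at this
          exact this
        · left
          refine ⟨N, hN, hxN, fun y hy => ?_⟩
          rcases huv ⟨hNO hy.1, hy.2⟩ with h3 | h3
          · exact h3
          · exact absurd ⟨y, hy, h3⟩ h2
      · right
        refine ⟨N, hN, hxN, fun y hy => ?_⟩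
        rcases huv ⟨hNO hy.1, hy.2⟩ with h3 | h3
        · exact absurd ⟨y, hy, h3⟩ h1
        · exact h3
    · rcases huv ⟨hx, hxZ⟩ with h3 | h3
      · exact Or.inl (huA h3)
      · exact Or.inr (hvB h3)
  obtain ⟨x, hxO, ⟨N, hN, hxN, hNu⟩, ⟨N', hN', hxN', hNv⟩⟩ := hOc A B hAo hBo hcov
    (hOu.mono (inter_subset_inter sdiff_subset huA)) (hOv.mono (inter_subset_inter sdiff_subset hvB))
  have hG : IsOpen (O ∩ N ∩ N') := (hO.inter hN).inter hN'
  have hxG : x ∈ O ∩ N ∩ N' := ⟨⟨hxO, hxN⟩, hxN'⟩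
  have hne : ((O ∩ N ∩ N') \ Z).Nonempty := by
    by_cases hxZ : x ∈ Z
    · obtain ⟨N1, hN1, hxN1, hN1G, -, y, hy⟩ := hZ x hxZ _ hG hxG
      exact ⟨y, hN1G hy.1, hy.2⟩
    · exact ⟨x, hxG, hxZ⟩
  obtain ⟨y, hy, hyZ⟩ := hne
  have : y ∈ O \ Z ∩ (u ∩ v) := ⟨⟨hy.1.1, hyZ⟩, hNu ⟨hy.1.2, hyZ⟩, hNv ⟨hy.2, hyZ⟩⟩
  rw [hcon] at this
  exact this

variable {F : Type} [NormedAddCommGroup F] [InnerProductSpace ℂ F]

open Classical in
/-- radial projection -/
noncomputable def nu (p : Sph F) (v : Amb F) : Sph F :=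
  if h : v = 0 then p else ⟨((‖v‖⁻¹ : ℝ) : ℂ) • v, by
    have : ‖v‖ ≠ 0 := norm_ne_zero_iff.2 h
    simp [norm_smul, this]⟩

lemma nu_val (p : Sph F) {v : Amb F} (h : v ≠ 0) :
    (nu p v : Amb F) = ((‖v‖⁻¹ : ℝ) : ℂ) • v := by
  simp [nu, h]

lemma nu_cont (p : Sph F) : ContinuousOn (nu p) {v : Amb F | v ≠ 0} := by
  rw [Topology.IsInducing.subtypeVal.continuousOn_iff]
  have h1 : ContinuousOn (fun v : Amb F => ((‖v‖⁻¹ : ℝ) : ℂ) • v) {v : Amb F | v ≠ 0} := by
    have h2 : ContinuousOn (fun v : Amb F => ((‖v‖⁻¹ : ℝ) : ℂ)) {v : Amb F | v ≠ 0} :=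
      Complex.continuous_ofReal.comp_continuousOn
        (continuous_norm.continuousOn.inv₀ fun v hv => norm_ne_zero_iff.2 hv)
    exact h2.smul continuousOn_id
  exact h1.congr fun v hv => nu_val p hv

lemma nu_self (p : Sph F) : nu p (p : Amb F) = p := by
  have hp : ‖(p : Amb F)‖ = 1 := by simp
  have h0 : (p : Amb F) ≠ 0 := by
    intro h
    rw [h] at hp
    simp at hp
  apply Subtype.ext
  rw [nu_val p h0, hp]
  simp

/-- the box -/
def box (p : Amb F) (r : ℝ) : Set (Amb F) := {v | ‖v.fst‖ < r ∧ ‖v.snd - p.snd‖ < r}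

lemma box_open (p : Amb F) (r : ℝ) : IsOpen (box p r) := by
  have h1 : Continuous fun v : Amb F => ‖v.fst‖ := (WithLp.continuous_fst 2 ℂ F).norm
  have h2 : Continuous fun v : Amb F => ‖v.snd - p.snd‖ :=
    ((WithLp.continuous_snd 2 ℂ F).sub continuous_const).norm
  exact (isOpen_lt h1 continuous_const).inter (isOpen_lt h2 continuous_const)

/-- the boxes form a basis at a point with vanishing first coordinate -/
lemma box_small (p : Amb F) (hp : p.fst = 0) (G : Set (Amb F)) (hG : IsOpen G) (hpG : p ∈ G) :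
    ∃ r : ℝ, 0 < r ∧ box p r ⊆ G := by
  obtain ⟨ε, hε, hball⟩ := Metric.isOpen_iff.1 hG p hpG
  refine ⟨ε / 2, by positivity, fun v hv => hball ?_⟩
  rw [mem_ball, dist_eq_norm]
  have h1 : ‖v - p‖ ^ 2 = ‖(v - p).fst‖ ^ 2 + ‖(v - p).snd‖ ^ 2 :=
    WithLp.prod_norm_sq_eq_of_L2 _
  have h2 : (v - p).fst = v.fst := by
    rw [WithLp.sub_fst, hp, sub_zero]
  have h3 : (v - p).snd = v.snd - p.snd := WithLp.sub_snd _ _
  rw [h2, h3] at h1
  have h4 : ‖v.fst‖ ^ 2 < (ε / 2) ^ 2 := by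
    have := hv.1
    have h5 := norm_nonneg v.fst
    nlinarith
  have h6 : ‖v.snd - p.snd‖ ^ 2 < (ε / 2) ^ 2 := by
    have := hv.2
    have h5 := norm_nonneg (v.snd - p.snd)
    nlinarith
  have h7 := norm_nonneg (v - p)
  nlinarith

/-- the parametrisation of the box without the axis -/
noncomputable def par (x : ℝ × ℝ × F) : Amb F :=
  WithLp.toLp 2 ((x.1 : ℂ) * Complex.exp (x.2.1 * Complex.I), x.2.2)

lemma par_cont : Continuous (par (F := F)) := by
  unfold par
  refine (WithLp.prod_continuous_toLp 2 ℂ F).comp ?_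
  fun_prop

lemma par_fst (x : ℝ × ℝ × F) :
    (par x).fst = (x.1 : ℂ) * Complex.exp (x.2.1 * Complex.I) := rfl

lemma par_snd (x : ℝ × ℝ × F) : (par x).snd = x.2.2 := rfl

lemma norm_par_fst (x : ℝ × ℝ × F) : ‖(par x).fst‖ = |x.1| := by
  rw [par_fst, norm_mul, Complex.norm_exp_ofReal_mul_I, mul_one, Complex.norm_real,
    Real.norm_eq_abs]

lemma ne_zero_of_fst {v : Amb F} (h : v.fst ≠ 0) : v ≠ 0 := by
  rintro rfl
  exact h rfl

lemma basis (p : Sph F) (hp : (p : Amb F).fst = 0) (G : Set (Sph F)) (hG : IsOpen G)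
    (hpG : p ∈ G) : ∃ N, IsOpen N ∧ p ∈ N ∧ N ⊆ G ∧
      IsPreconnected (N \ {p : Sph F | (p : Amb F).fst = 0}) ∧
      (N \ {p : Sph F | (p : Amb F).fst = 0}).Nonempty := by
  have hpn : ‖(p : Amb F)‖ = 1 := by simp
  have hp0 : (p : Amb F) ≠ 0 := by
    intro h
    rw [h] at hpn
    simp at hpn
  -- the open set of vectors which are projected into `G`
  have hopen0 : IsOpen {v : Amb F | v ≠ 0} := isOpen_ne
  have hG' : IsOpen ({v : Amb F | v ≠ 0} ∩ nu p ⁻¹' G) :=
    (nu_cont p).isOpen_inter_preimage hopen0 hG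
  obtain ⟨r, hr, hbox⟩ := box_small (p : Amb F) hp _ hG' ⟨hp0, by
    change nu p (p : Amb F) ∈ G
    rwa [nu_self]⟩
  have hpbox : (p : Amb F) ∈ box (p : Amb F) r := by
    constructor
    · rw [hp]; simpa using hr
    · simpa using hr
  set C : Set (ℝ × ℝ × F) := Ioo 0 r ×ˢ (univ ×ˢ ball (p : Amb F).snd r) with hC
  have hCc : IsPreconnected C :=
    isPreconnected_Ioo.prod (isPreconnected_univ.prod (convex_ball _ _).isPreconnected)
  have hCpar : ∀ x ∈ C, par x ∈ box (p : Amb F) r ∧ (par x).fst ≠ 0 := by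
    intro x hx
    have h1 : ‖(par x).fst‖ = x.1 := by
      rw [norm_par_fst, abs_of_pos hx.1.1]
    refine ⟨⟨?_, ?_⟩, ?_⟩
    · rw [h1]; exact hx.1.2
    · rw [par_snd, ← dist_eq_norm]; exact hx.2.2
    · intro h0
      rw [h0, norm_zero] at h1
      exact hx.1.1.ne h1
  have himg : {x : Sph F | ∃ t : ℝ, 0 < t ∧ ((t : ℂ) • (x : Amb F)) ∈ box (p : Amb F) r} \
      {p : Sph F | (p : Amb F).fst = 0} = (fun x => nu p (par x)) '' C := by
    ext x
    constructor
    · rintro ⟨⟨t, ht, hx⟩, hx0⟩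
      have hxn : ‖(x : Amb F)‖ = 1 := by simp
      have hf : ((t : ℂ) • (x : Amb F)).fst = (t : ℂ) * (x : Amb F).fst := by
        rw [WithLp.smul_fst]
        rfl
      have hf0 : ((t : ℂ) • (x : Amb F)).fst ≠ 0 := by
        rw [hf]
        exact mul_ne_zero (by exact_mod_cast ht.ne') hx0
      refine ⟨(‖((t : ℂ) • (x : Amb F)).fst‖, Complex.arg ((t : ℂ) • (x : Amb F)).fst,
        ((t : ℂ) • (x : Amb F)).snd), ⟨⟨norm_pos_iff.2 hf0, hx.1⟩, trivial, ?_⟩, ?_⟩
      · change ((t : ℂ) • (x : Amb F)).snd ∈ ball (p : Amb F).snd r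
        rw [mem_ball, dist_eq_norm]
        exact hx.2
      · have h1 : par (‖((t : ℂ) • (x : Amb F)).fst‖, Complex.arg ((t : ℂ) • (x : Amb F)).fst,
            ((t : ℂ) • (x : Amb F)).snd) = (t : ℂ) • (x : Amb F) := by
          unfold par
          simp only
          rw [Complex.norm_mul_exp_arg_mul_I]
          rfl
        simp only
        rw [h1]
        apply Subtype.ext
        rw [nu_val p (ne_zero_of_fst hf0), norm_smul, hxn, mul_one, smul_smul,
          Complex.norm_real, Real.norm_eq_abs, abs_of_pos ht]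
        have : ((t⁻¹ : ℝ) : ℂ) * (t : ℂ) = 1 := by
          push_cast
          have : (t : ℂ) ≠ 0 := by exact_mod_cast ht.ne'
          field_simp
        rw [this, one_smul]
    · rintro ⟨y, hy, rfl⟩
      obtain ⟨h1, h2⟩ := hCpar y hy
      have h3 := ne_zero_of_fst h2
      have h4 : ‖par y‖ ≠ 0 := norm_ne_zero_iff.2 h3
      have h5 : 0 < ‖par y‖ := norm_pos_iff.2 h3
      have h6 : (‖par y‖ : ℂ) ≠ 0 := by exact_mod_cast h4
      refine ⟨⟨‖par y‖, h5, ?_⟩, ?_⟩
      · simp only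
        rw [nu_val p h3, smul_smul]
        have : (‖par y‖ : ℂ) * ((‖par y‖⁻¹ : ℝ) : ℂ) = 1 := by
          push_cast
          field_simp
        rw [this, one_smul]
        exact h1
      · intro h7
        change (nu p (par y) : Amb F).fst = 0 at h7
        rw [nu_val p h3, WithLp.smul_fst] at h7
        rcases smul_eq_zero.1 h7 with h8 | h8
        · push_cast at h8
          exact inv_ne_zero h6 h8
        · exact h2 h8
  refine ⟨{x : Sph F | ∃ t : ℝ, 0 < t ∧ ((t : ℂ) • (x : Amb F)) ∈ box (p : Amb F) r}, ?_, ?_, ?_,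
    ?_, ?_⟩
  · have : {x : Sph F | ∃ t : ℝ, 0 < t ∧ ((t : ℂ) • (x : Amb F)) ∈ box (p : Amb F) r} =
        ⋃ t : ℝ, ⋃ _ : 0 < t, (fun x : Sph F => (t : ℂ) • (x : Amb F)) ⁻¹' box (p : Amb F) r := by
      ext x
      simp
    rw [this]
    refine isOpen_iUnion fun t => isOpen_iUnion fun _ => (box_open _ _).preimage ?_
    fun_prop
  · exact ⟨1, one_pos, by simpa using hpbox⟩
  · rintro x ⟨t, ht, hx⟩
    have h1 := hbox hx
    have h2 : nu p ((t : ℂ) • (x : Amb F)) = x := by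
      apply Subtype.ext
      rw [nu_val p h1.1, norm_smul]
      have hxn : ‖(x : Amb F)‖ = 1 := by simp
      rw [hxn, mul_one, smul_smul, Complex.norm_real, Real.norm_eq_abs, abs_of_pos ht]
      have : ((t⁻¹ : ℝ) : ℂ) * (t : ℂ) = 1 := by
        push_cast
        have : (t : ℂ) ≠ 0 := by exact_mod_cast ht.ne'
        field_simp
      rw [this, one_smul]
    have h3 : nu p ((t : ℂ) • (x : Amb F)) ∈ G := h1.2
    rwa [h2] at h3
  · rw [himg]
    refine hCc.image _ ?_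
    refine (nu_cont p).comp par_cont.continuousOn fun x hx => ?_
    exact ne_zero_of_fst (hCpar x hx).2
  · rw [himg]
    exact Set.Nonempty.image _ ⟨(r / 2, 0, (p : Amb F).snd), ⟨by positivity, by
      change r / 2 < r
      linarith⟩, trivial, mem_ball_self hr⟩

end SphConn

open SphConn in
theorem sphConn (F : Type) [NormedAddCommGroup F] [InnerProductSpace ℂ F] : SphConn_Stmt F := by
  intro O hO hOc
  have h := removal {p : Sph F | (p : Amb F).fst = 0} (fun p hp G hG hpG => basis p hp G hG hpG)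
    O hO hOc
  have h2 : O ∩ {p : Sph F | (p : Amb F).fst ≠ 0} = O \ {p : Sph F | (p : Amb F).fst = 0} := by
    ext x
    simp
  rw [h2]
  exact h

end Pool.Agent.MinHomeo
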