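import Pool.Agent.Lib_helper57.MinHomeo.Defs

open Set Metric Topology

namespace Pool.Agent.MinHomeo

theorem sphTrans (F : Type) [NormedAddCommGroup F] [InnerProductSpace ℂ F]
    [FiniteDimensional ℂ F] : SphTrans_Stmt F := by
  intro p q
  have hp : ‖(p : Amb F)‖ = 1 := by simp
  have hq : ‖(q : Amb F)‖ = 1 := by simp
  have : FiniteDimensional ℂ (Amb F) := by infer_instance
  let L : (Submodule.span ℂ {(p : Amb F)}) →ₗᵢ[ℂ] Amb F :=
    (LinearIsometry.toSpanSingleton ℂ (Amb F) hq).comp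
      (LinearIsometryEquiv.toSpanUnitSingleton (𝕜 := ℂ) (p : Amb F) hp).symm.toLinearIsometry
  refine ⟨L.extend.toLinearIsometryEquiv rfl, ?_⟩
  have hmem : (p : Amb F) ∈ Submodule.span ℂ {(p : Amb F)} := Submodule.mem_span_singleton_self _
  have h1 : L.extend ((⟨(p : Amb F), hmem⟩ : Submodule.span ℂ {(p : Amb F)}) : Amb F) =
      L ⟨(p : Amb F), hmem⟩ := LinearIsometry.extend_apply L _
  have h2 : (LinearIsometryEquiv.toSpanUnitSingleton (𝕜 := ℂ) (p : Amb F) hp).symm
      ⟨(p : Amb F), hmem⟩ = 1 := by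
    rw [LinearIsometryEquiv.symm_apply_eq]
    apply Subtype.ext
    simp
  have h3 : L ⟨(p : Amb F), hmem⟩ = (q : Amb F) := by
    simp [L, h2]
  simpa using h1.trans h3

end Pool.Agent.MinHomeo
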