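import Pool.Agent.Lib_helper57.MinHomeo.Defs

/-!
# MOVE: moving points inside open preconnected subsets of the range of the chart
-/

set_option linter.unusedSectionVars false

open Set Metric Topology

namespace Pool.Agent.MinHomeo

namespace Move

/-- distance to the nearest integer -/
noncomputable def nu (t : ℝ) : ℝ := |t - round t|

lemma nu_nonneg (t : ℝ) : 0 ≤ nu t := abs_nonneg _

lemma nu_le (t : ℝ) (k : ℤ) : nu t ≤ |t - k| := round_le t k

lemma nu_lip (s t : ℝ) : nu s ≤ nu t + |s - t| := by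
  have h1 := nu_le s (round t)
  have h2 : |s - round t| ≤ |s - t| + |t - round t| := by
    have := abs_add_le (s - t) (t - round t)
    simpa using this
  unfold nu at *
  linarith

lemma nu_add_one (t : ℝ) : nu (t + 1) = nu t := by
  unfold nu
  have : round (t + 1) = round t + 1 := by
    exact_mod_cast round_add_one t
  rw [this]
  push_cast
  ring_nf

lemma nu_zero : nu 0 = 0 := by simp [nu]

section Banach

variable {E : Type*} [NormedAddCommGroup E] [CompleteSpace E]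

lemma bij_of_contr (g : E → E) (K : ℝ) (hK : K < 1) (hK0 : 0 ≤ K)
    (hg : ∀ y y', ‖g y - g y'‖ ≤ K * ‖y - y'‖) : Function.Bijective fun y => y + g y := by
  constructor
  · intro y y' h
    simp only at h
    have h1 : y - y' = g y' - g y := by
      rw [sub_eq_sub_iff_add_eq_add, h, add_comm]
    have h2 := hg y' y
    rw [← h1, norm_sub_rev y' y] at h2
    have h3 : ‖y - y'‖ = 0 := by
      have := norm_nonneg (y - y')
      nlinarith
    exact sub_eq_zero.1 (norm_eq_zero.1 h3)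
  · intro z
    have hc : ContractingWith ⟨K, hK0⟩ fun y => z - g y := by
      constructor
      · exact_mod_cast hK
      · refine LipschitzWith.of_dist_le_mul fun y y' => ?_
        rw [dist_eq_norm, dist_eq_norm]
        have : z - g y - (z - g y') = g y' - g y := by abel
        rw [this, norm_sub_rev y y']
        exact hg y' y
    refine ⟨hc.fixedPoint, ?_⟩
    have := hc.fixedPoint_isFixedPt
    have h2 : z - g hc.fixedPoint = hc.fixedPoint := this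
    simp only
    nth_rewrite 1 [← h2]
    abel

end Banach

section Local

variable {X : Type} [NormedAddCommGroup X] [NormedSpace ℝ X]

/-- periodic size of `y - (x₀, θ₀)` -/
noncomputable def siz (y₀ y : X × ℝ) : ℝ := max ‖y.1 - y₀.1‖ (nu (y.2 - y₀.2))

lemma siz_lip (y₀ y y' : X × ℝ) : siz y₀ y ≤ siz y₀ y' + ‖y - y'‖ := by
  unfold siz
  have h1 : ‖y.1 - y₀.1‖ ≤ ‖y'.1 - y₀.1‖ + ‖y - y'‖ := by
    have h2 : ‖y.1 - y'.1‖ ≤ ‖y - y'‖ := norm_fst_le (y - y')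
    have h3 : ‖y.1 - y₀.1‖ ≤ ‖y.1 - y'.1‖ + ‖y'.1 - y₀.1‖ := by
      have := norm_add_le (y.1 - y'.1) (y'.1 - y₀.1)
      simpa using this
    linarith
  have h4 : nu (y.2 - y₀.2) ≤ nu (y'.2 - y₀.2) + ‖y - y'‖ := by
    have h5 := nu_lip (y.2 - y₀.2) (y'.2 - y₀.2)
    have h6 : |y.2 - y₀.2 - (y'.2 - y₀.2)| ≤ ‖y - y'‖ := by
      have : y.2 - y₀.2 - (y'.2 - y₀.2) = (y - y').2 := by simp
      rw [this, ← Real.norm_eq_abs]
      exact norm_snd_le (y - y')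
    linarith
  exact max_le (h1.trans (by gcongr; exact le_max_left _ _))
    (h4.trans (by gcongr; exact le_max_right _ _))

lemma siz_shift (y₀ y : X × ℝ) : siz y₀ (y + (0, 1)) = siz y₀ y := by
  unfold siz
  have h1 : (y + ((0 : X), (1 : ℝ))).1 = y.1 := by simp
  have h2 : (y + ((0 : X), (1 : ℝ))).2 - y₀.2 = (y.2 - y₀.2) + 1 := by simp; ring
  rw [h1, h2, nu_add_one]

/-- the cutoff function -/
noncomputable def cut (y₀ : X × ℝ) (r : ℝ) (y : X × ℝ) : ℝ := max 0 (1 - siz y₀ y / r)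

lemma cut_lip (y₀ : X × ℝ) {r : ℝ} (hr : 0 < r) (y y' : X × ℝ) :
    |cut y₀ r y - cut y₀ r y'| ≤ ‖y - y'‖ / r := by
  unfold cut
  have h1 : |max 0 (1 - siz y₀ y / r) - max 0 (1 - siz y₀ y' / r)| ≤
      |(1 - siz y₀ y / r) - (1 - siz y₀ y' / r)| := by
    have := abs_max_sub_max_le_max (0 : ℝ) (1 - siz y₀ y / r) 0 (1 - siz y₀ y' / r)
    simpa using this
  refine h1.trans ?_
  have h2 : (1 - siz y₀ y / r) - (1 - siz y₀ y' / r) = (siz y₀ y' - siz y₀ y) / r := by ring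
  rw [h2, abs_div, abs_of_pos hr]
  gcongr
  rw [abs_le]
  have h3 := siz_lip y₀ y y'
  have h4 := siz_lip y₀ y' y
  rw [norm_sub_rev] at h4
  constructor <;> linarith

/-- the local move -/
noncomputable def T (y₀ : X × ℝ) (r : ℝ) (w : X × ℝ) (y : X × ℝ) : X × ℝ :=
  y + cut y₀ r y • w

lemma T_lip (y₀ : X × ℝ) {r : ℝ} (hr : 0 < r) (w y y' : X × ℝ) :
    ‖cut y₀ r y • w - cut y₀ r y' • w‖ ≤ (‖w‖ / r) * ‖y - y'‖ := by
  rw [← sub_smul, norm_smul, Real.norm_eq_abs]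
  calc |cut y₀ r y - cut y₀ r y'| * ‖w‖ ≤ (‖y - y'‖ / r) * ‖w‖ := by
        gcongr
        exact cut_lip y₀ hr y y'
    _ = (‖w‖ / r) * ‖y - y'‖ := by ring

lemma T_bij [CompleteSpace X] (y₀ : X × ℝ) {r : ℝ} (hr : 0 < r) (w : X × ℝ) (hw : ‖w‖ < r) :
    Function.Bijective (T y₀ r w) :=
  bij_of_contr (fun y => cut y₀ r y • w) (‖w‖ / r) ((div_lt_one hr).2 hw) (by positivity)
    (T_lip y₀ hr w)

lemma T_cont (y₀ : X × ℝ) {r : ℝ} (hr : 0 < r) (w : X × ℝ) : Continuous (T y₀ r w) := by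
  have h1 : LipschitzWith ⟨‖w‖ / r, by positivity⟩ fun y => cut y₀ r y • w :=
    LipschitzWith.of_dist_le_mul fun y y' => by
      rw [dist_eq_norm, dist_eq_norm]
      exact T_lip y₀ hr w y y'
  exact continuous_id.add h1.continuous

lemma T_shift (y₀ : X × ℝ) (r : ℝ) (w : X × ℝ) (x : X) (θ : ℝ) :
    T y₀ r w (x, θ + 1) = T y₀ r w (x, θ) + (0, 1) := by
  have h1 : ((x, θ + 1) : X × ℝ) = (x, θ) + (0, 1) := by simp
  unfold T cut
  rw [h1, siz_shift]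
  abel

lemma cut_zero (y₀ : X × ℝ) {r : ℝ} (hr : 0 < r) {y : X × ℝ} (h : r ≤ siz y₀ y) :
    cut y₀ r y = 0 := by
  unfold cut
  rw [max_eq_left]
  have : 1 ≤ siz y₀ y / r := (one_le_div hr).2 h
  linarith

lemma T_id (y₀ : X × ℝ) {r : ℝ} (hr : 0 < r) (w : X × ℝ) {y : X × ℝ} (h : r ≤ siz y₀ y) :
    T y₀ r w y = y := by
  unfold T
  rw [cut_zero y₀ hr h]
  simp

lemma T_base (y₀ : X × ℝ) (r : ℝ) (w : X × ℝ) : T y₀ r w y₀ = y₀ + w := by
  unfold T cut siz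
  simp [nu_zero]

/-- a point of small periodic size is close to `y₀` up to an integer shift -/
lemma near_of_siz {y₀ y : X × ℝ} {r : ℝ} (h : siz y₀ y < r) :
    ∃ k : ℤ, (y.1, y.2 + (k : ℝ)) ∈ ball y₀ r := by
  refine ⟨-round (y.2 - y₀.2), ?_⟩
  unfold siz nu at h
  rw [max_lt_iff] at h
  rw [mem_ball, Prod.dist_eq, max_lt_iff]
  constructor
  · rw [dist_eq_norm]
    exact h.1
  · rw [Real.dist_eq]
    push_cast
    have : y.2 + -(round (y.2 - y₀.2) : ℝ) - y₀.2 = y.2 - y₀.2 - round (y.2 - y₀.2) := by ring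
    rw [this]
    exact h.2

end Local

section Main

variable {X M : Type} [NormedAddCommGroup X] [NormedSpace ℝ X] [MetricSpace M]

lemma Phi_int (C : RotChart X M) (y : X × ℝ) (k : ℤ) : C.Φ (y.1, y.2 + k) = C.Φ y := by
  have := (C.Φ_eq y.1 y.2 y.1 (y.2 + k)).2 ⟨rfl, k, rfl⟩
  exact this.symm

lemma local_move [FiniteDimensional ℝ X] (C : RotChart X M) (h : Transport_Stmt C)
    (S : Set M) (hS : IsOpen S) (hr : S ⊆ range C.Φ) (q : M) (hq : q ∈ S) :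
    ∃ N : Set M, IsOpen N ∧ q ∈ N ∧ N ⊆ S ∧ ∀ q' ∈ N, ∃ Ψ : M ≃ₜ M, Ψ q = q' ∧
      ∀ x, x ∉ S → Ψ x = x := by
  have : CompleteSpace X := FiniteDimensional.complete ℝ X
  obtain ⟨y₀, rfl⟩ := hr hq
  have ho : IsOpen (C.Φ ⁻¹' S) := hS.preimage C.Φ_cont
  obtain ⟨r, hr0, hball⟩ := Metric.isOpen_iff.1 ho y₀ hq
  refine ⟨C.Φ '' ball y₀ r, C.Φ_open _ isOpen_ball, ⟨y₀, mem_ball_self hr0, rfl⟩, ?_, ?_⟩
  · rintro _ ⟨y, hy, rfl⟩
    exact hball hy
  · rintro _ ⟨y', hy', rfl⟩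
    have hw : ‖y' - y₀‖ < r := by rwa [← dist_eq_norm]
    have hT : ∀ y : X × ℝ, ‖y₀.1‖ + r ≤ ‖y.1‖ → T y₀ r (y' - y₀) y = y := by
      intro y hy
      apply T_id y₀ hr0
      unfold siz
      refine le_trans ?_ (le_max_left _ _)
      have := norm_sub_norm_le y.1 y₀.1
      linarith
    obtain ⟨Ψ, hΨ, hΨ'⟩ := h (T y₀ r (y' - y₀)) (T_cont y₀ hr0 _) (T_bij y₀ hr0 _ hw)
      (T_shift y₀ r _) ⟨‖y₀.1‖ + r, hT⟩
    refine ⟨Ψ, ?_, fun x hx => ?_⟩
    · rw [hΨ, T_base]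
      simp
    · by_cases hxr : x ∈ range C.Φ
      · obtain ⟨y, rfl⟩ := hxr
        rw [hΨ, T_id y₀ hr0]
        by_contra hlt
        push Not at hlt
        obtain ⟨k, hk⟩ := near_of_siz hlt
        apply hx
        rw [← Phi_int C y k]
        exact hball hk
      · exact hΨ' x hxr

end Main

end Move

variable {X M : Type} [NormedAddCommGroup X] [NormedSpace ℝ X] [MetricSpace M]

open Move in
theorem move [FiniteDimensional ℝ X] [CompactSpace M] (C : RotChart X M)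
    (h : Transport_Stmt C) : Move_Stmt C := by
  intro S hS hSc hSr p hp q hq
  have hloc := local_move C h S hS hSr
  set A : Set M := {x | x ∈ S ∧ ∃ Ψ : M ≃ₜ M, Ψ p = x ∧ ∀ x, x ∉ S → Ψ x = x} with hA
  set B : Set M := {x | x ∈ S ∧ ¬ ∃ Ψ : M ≃ₜ M, Ψ p = x ∧ ∀ x, x ∉ S → Ψ x = x} with hB
  have hAo : IsOpen A := by
    rw [isOpen_iff_forall_mem_open]
    rintro x ⟨hx, Ψ, h1, h2⟩
    obtain ⟨N, hN, hxN, hNS, hmv⟩ := hloc x hx
    refine ⟨N, fun y hy => ⟨hNS hy, ?_⟩, hN, hxN⟩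
    obtain ⟨Ψ', h3, h4⟩ := hmv y hy
    refine ⟨Ψ.trans Ψ', ?_, fun z hz => ?_⟩
    · simp [h1, h3]
    · simp [h2 z hz, h4 z hz]
  have hBo : IsOpen B := by
    rw [isOpen_iff_forall_mem_open]
    rintro x ⟨hx, hn⟩
    obtain ⟨N, hN, hxN, hNS, hmv⟩ := hloc x hx
    refine ⟨N, fun y hy => ⟨hNS hy, ?_⟩, hN, hxN⟩
    rintro ⟨Ψ, h1, h2⟩
    obtain ⟨Ψ', h3, h4⟩ := hmv y hy
    apply hn
    refine ⟨Ψ.trans Ψ'.symm, ?_, fun z hz => ?_⟩
    · simp [h1, ← h3]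
    · have h5 : Ψ'.symm z = z := by
        rw [Homeomorph.symm_apply_eq, h4 z hz]
      simp [h2 z hz, h5]
  by_contra hcon
  have hcov : S ⊆ A ∪ B := by
    intro x hx
    by_cases hxx : ∃ Ψ : M ≃ₜ M, Ψ p = x ∧ ∀ x, x ∉ S → Ψ x = x
    · exact Or.inl ⟨hx, hxx⟩
    · exact Or.inr ⟨hx, hxx⟩
  obtain ⟨z, -, hz1, hz2⟩ := hSc A B hAo hBo hcov
    ⟨p, hp, hp, Homeomorph.refl M, rfl, fun _ _ => rfl⟩ ⟨q, hq, hq, hcon⟩
  exact hz2.2 hz1.2

end Pool.Agent.MinHomeo
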